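import Pool.Agent.Helper14K9.HC.Stm2

set_option autoImplicit false

/-! Borel sets of Laurent series are given by trees. -/

namespace Pool.Agent.Helper44K9.HC

open Function MeasureTheory Topology
open Pool.Agent.Helper14K9.PJ Pool.Agent.Helper14K9.HC

lemma range_coeff (p : ℕ) [Fact p.Prime] :
    Set.range (fun x : LaurentSeries (ZMod p) => x.coeff) =
      ⋃ N : ℕ, {c : ℤ → ZMod p | ∀ i : ℤ, i < -(N : ℤ) → c i = 0} := by
  ext c
  rw [Set.mem_iUnion]
  constructor
  · rintro ⟨x, rfl⟩
    refine ⟨(-x.order).toNat, fun i hi => ?_⟩
    apply HahnSeries.coeff_eq_zero_of_lt_order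
    omega
  · rintro ⟨N, hN⟩
    refine ⟨HahnSeries.ofSuppBddBelow c ⟨-(N : ℤ), ?_⟩, ?_⟩
    · intro i hi
      by_contra h
      exact hi (hN i (not_le.1 h))
    · rfl

/-- the coefficient map -/
def io (p : ℕ) (x : LaurentSeries (ZMod p)) : ℤ → ZMod p := x.coeff

lemma io_inj (p : ℕ) : Injective (io p) := fun _ _ h => HahnSeries.ext h

theorem bor : S_BOR := by
  intro p _ B hB
  classical
  letI : TopologicalSpace (ZMod p) := ⊥
  haveI : DiscreteTopology (ZMod p) := ⟨rfl⟩
  haveI : NeZero p := ⟨(Fact.out : p.Prime).ne_zero⟩
  haveI : Countable (ZMod p) := Finite.to_countable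
  haveI : PolishSpace (ZMod p) := inferInstance
  letI : MeasurableSpace (ℤ → ZMod p) := borel _
  haveI : BorelSpace (ℤ → ZMod p) := ⟨rfl⟩
  -- balls
  have hle : MeasurableSpace.generateFrom
      {U : Set (LaurentSeries (ZMod p)) | ∃ (a : LaurentSeries (ZMod p)) (N : ℤ), U = {x | Vle N (x - a)}} ≤
      MeasurableSpace.comap (io p) (borel (ℤ → ZMod p)) := by
    apply MeasurableSpace.generateFrom_le
    rintro U ⟨a, N, rfl⟩
    refine ⟨{c | ∀ i : ℤ, i < N → c i = a.coeff i}, ?_, ?_⟩
    · have hcl : IsClosed {c : ℤ → ZMod p | ∀ i : ℤ, i < N → c i = a.coeff i} := by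
        have : {c : ℤ → ZMod p | ∀ i : ℤ, i < N → c i = a.coeff i} =
            ⋂ i : ℤ, ⋂ _ : i < N, {c : ℤ → ZMod p | c i = a.coeff i} := by
          ext c; simp
        rw [this]
        refine isClosed_iInter fun i => isClosed_iInter fun _ => ?_
        exact isClosed_eq (continuous_apply i) continuous_const
      exact hcl.measurableSet
    · ext x
      simp only [Set.mem_preimage, Set.mem_setOf_eq, Vle, io, HahnSeries.coeff_sub, sub_eq_zero]
  obtain ⟨B', hB', hBB⟩ := hle B hB
  have hrange : MeasurableSet (Set.range (io p)) := by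
    have h1 := range_coeff p
    have h2 : Set.range (io p) = Set.range (fun x : LaurentSeries (ZMod p) => x.coeff) := rfl
    rw [h2, h1]
    refine MeasurableSet.iUnion fun N => ?_
    have hcl : IsClosed {c : ℤ → ZMod p | ∀ i : ℤ, i < -(N : ℤ) → c i = 0} := by
      have : {c : ℤ → ZMod p | ∀ i : ℤ, i < -(N : ℤ) → c i = 0} =
          ⋂ i : ℤ, ⋂ _ : i < -(N : ℤ), {c : ℤ → ZMod p | c i = 0} := by
        ext c; simp
      rw [this]
      refine isClosed_iInter fun i => isClosed_iInter fun _ => ?_
      exact isClosed_eq (continuous_apply i) continuous_const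
    exact hcl.measurableSet
  have himage : io p '' B = B' ∩ Set.range (io p) := by
    rw [← hBB, Set.image_preimage_eq_inter_range]
  have hana : AnalyticSet (io p '' B) := by
    rw [himage]
    exact (MeasurableSet.inter hB' hrange).analyticSet
  rw [AnalyticSet] at hana
  rcases hana with h0 | ⟨f, hf, hfr⟩
  · refine ⟨∅, ?_⟩
    have hB0 : B = ∅ := Set.image_eq_empty.1 h0
    rw [hB0]
    ext x
    simp [Pool.Agent.Helper14K9.HC.Tree]
  · refine ⟨{q | ∃ (y : ℕ → ℕ) (n : ℕ), q = ((List.range n).map y,
      (List.range (2 * n)).map fun i => f y ((i : ℤ) - n))}, ?_⟩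
    ext x
    constructor
    · intro hx
      have h1 : io p x ∈ Set.range f := by rw [hfr]; exact Set.mem_image_of_mem _ hx
      obtain ⟨y, hy⟩ := h1
      refine ⟨y, fun n => ⟨y, n, ?_⟩⟩
      rw [hy]
      rfl
    · rintro ⟨y, hy⟩
      have key : f y = io p x := by
        funext i
        -- continuity at `y` of the coordinate `i`
        have hc : Continuous fun y' : ℕ → ℕ => f y' i := (continuous_apply i).comp hf
        have hopen : IsOpen {y' : ℕ → ℕ | f y' i = f y i} := by
          have := (isOpen_discrete ({f y i} : Set (ZMod p))).preimage hc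
          exact this
        have hmem : y ∈ {y' : ℕ → ℕ | f y' i = f y i} := rfl
        obtain ⟨I, u, hu, hsub⟩ := isOpen_pi_iff.1 hopen y hmem
        -- a bound for the coordinates
        set m := I.sup id + 1 with hm
        set n := max m (i.natAbs + 1) with hn
        obtain ⟨y', n', he⟩ := hy n
        have he1 := (Prod.ext_iff.1 he).1
        have he2 := (Prod.ext_iff.1 he).2
        simp only at he1 he2
        have hnn : n = n' := by
          have := congrArg List.length he1
          simpa using this
        subst hnn
        have hyy : ∀ j < n, y j = y' j := by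
          intro j hj
          have := List.map_inj_left.1 he1 j (List.mem_range.2 hj)
          exact this
        have hy'mem : y' ∈ (I : Set ℕ).pi u := by
          intro j hj
          have hjI : j ∈ I := Finset.mem_coe.1 hj
          have hjm : j < m := by
            have := Finset.le_sup (f := id) hjI
            simp only [id] at this
            omega
          have hjn : j < n := lt_of_lt_of_le hjm (le_max_left _ _)
          rw [← hyy j hjn]
          exact (hu j hjI).2
        have h1 : f y' i = f y i := hsub hy'mem
        -- the coefficient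
        have hi1 : (i.natAbs : ℤ) + 1 ≤ n := by
          have : i.natAbs + 1 ≤ n := le_max_right _ _
          exact_mod_cast this
        have hi2 : 0 ≤ i + n := by omega
        have hi3 : i + n < 2 * n := by omega
        have hx : x.coeff i = f y' i := by
          have h2 := List.map_inj_left.1 he2 (i + n) (by
            simp only [List.bind_eq_flatMap, List.pure_def, List.mem_flatMap, List.mem_range, List.mem_singleton]
            exact ⟨(i + n).toNat, by omega, by omega⟩)
          have h3 : (i + n : ℤ) - n = i := by omega
          simp only [h3] at h2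
          exact h2
        rw [← h1, ← hx]
        rfl
      have h2 : io p x ∈ io p '' B := by
        rw [← hfr, ← key]
        exact Set.mem_range_self _
      obtain ⟨x', hx', hxx⟩ := h2
      rw [← io_inj p hxx]
      exact hx'

end Pool.Agent.Helper44K9.HC
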